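import Mathlib

/-!
# There is no least axiomatic extension of MTL with the deductive interpolation property

Let `A` be the five-element Łukasiewicz chain and let `B` be the other five-element IMTL-chain, with
`3 * 3 = 3 * 2 = 1` and `i * j = 0` for all other `i, j < 4`. The logics of `A` and of `B` have the
deductive interpolation property, since in both chains `x ^ 4 = 0` for `x < 1`, and every element
is the only one satisfying some formula in one variable. But no axiomatic extension `L` of MTL that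
is contained in both logics has the property. In both chains there are elements with `x = ¬x` and
`y = (y → x)`; such elements `y` are unique in all MTL-algebras. In `A`, `x ≤ y ^ 2`, but not in `B`.
So, with `e = ((z → (z → x)) ∧ ((z → x) → z))`,

`x ↔ ¬x, y ↔ (y → x), x → y ^ 2 ⊢ e ^ 2 → (x → z ^ 2)`

holds in MTL, but an interpolant, which can only use the variable `x`, is satisfied in `A` for
`x = 2`, hence in the common subalgebra `{0, 2, 4}` of `A` and `B`, hence in `B`, where the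
conclusion fails for `z = 3`.
-/

set_option autoImplicit false

universe u

namespace Pool.Agent.Results.MP_acc005_lc.NoMinimum

/-- Formulas in the language `{∧, ∨, ·, →, 0, 1}` over the variables `0, 1, 2, ...`. -/
inductive Fm : Type
  | var (i : ℕ) : Fm
  | zero : Fm
  | one : Fm
  | and (φ ψ : Fm) : Fm
  | or (φ ψ : Fm) : Fm
  | conj (φ ψ : Fm) : Fm
  | imp (φ ψ : Fm) : Fm

/-- MTL-algebras: bounded lattices with a commutative monoid structure `(·, 1)` (with `1` the top
element), a residuum, and prelinearity. -/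
class MTLAlgebra (A : Type u) extends Lattice A, BoundedOrder A, CommMonoid A where
  /-- the residuum `x → y` -/
  res : A → A → A
  mul_le_iff : ∀ x y z : A, x * y ≤ z ↔ x ≤ res y z
  one_eq_top : (1 : A) = ⊤
  prelin : ∀ x y : A, res x y ⊔ res y x = 1

/-- The value of a formula under a valuation. -/
def eval {A : Type u} [MTLAlgebra A] (v : ℕ → A) : Fm → A
  | .var i => v i
  | .zero => ⊥
  | .one => 1
  | .and φ ψ => eval v φ ⊓ eval v ψ
  | .or φ ψ => eval v φ ⊔ eval v ψ
  | .conj φ ψ => eval v φ * eval v ψ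
  | .imp φ ψ => MTLAlgebra.res (eval v φ) (eval v ψ)

/-- `Γ ⊢_MTL φ`: every valuation into an MTL-algebra that sends all members of `Γ` to `1` sends `φ`
to `1`. -/
def MTLCons (Γ : Set Fm) (φ : Fm) : Prop :=
  ∀ (A : Type) [MTLAlgebra A] (v : ℕ → A), (∀ γ ∈ Γ, eval v γ = 1) → eval v φ = 1

/-- Substitution. -/
def subst (σ : ℕ → Fm) : Fm → Fm
  | .var i => σ i
  | .zero => .zero
  | .one => .one
  | .and φ ψ => .and (subst σ φ) (subst σ ψ)
  | .or φ ψ => .or (subst σ φ) (subst σ ψ)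
  | .conj φ ψ => .conj (subst σ φ) (subst σ ψ)
  | .imp φ ψ => .imp (subst σ φ) (subst σ ψ)

/-- The relation `L` (between sets of formulas and formulas) is an axiomatic extension of MTL: for
some set `S` of formulas, closed under substitution, `L` is the consequence relation of MTL with the
members of `S` added as axioms. -/
def IsAxExt (L : Set Fm → Fm → Prop) : Prop :=
  ∃ S : Set Fm, (∀ (σ : ℕ → Fm), ∀ φ ∈ S, subst σ φ ∈ S) ∧ ∀ Γ φ, L Γ φ ↔ MTLCons (Γ ∪ S) φ

/-- The variables of a formula. -/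
def vars : Fm → Finset ℕ
  | .var i => {i}
  | .zero => ∅
  | .one => ∅
  | .and φ ψ => vars φ ∪ vars ψ
  | .or φ ψ => vars φ ∪ vars ψ
  | .conj φ ψ => vars φ ∪ vars ψ
  | .imp φ ψ => vars φ ∪ vars ψ

/-- The deductive interpolation property: whenever `Γ ⊢_L φ` there is a set `Δ` of formulas in
variables common to `Γ` and `φ` with `Γ ⊢_L δ` for all `δ ∈ Δ` and `Δ ⊢_L φ`. -/
def DIP (L : Set Fm → Fm → Prop) : Prop :=
  ∀ (Γ : Set Fm) (φ : Fm), L Γ φ → ∃ Δ : Set Fm,
    (∀ δ ∈ Δ, ∀ i ∈ vars δ, (∃ γ ∈ Γ, i ∈ vars γ) ∧ i ∈ vars φ) ∧ (∀ δ ∈ Δ, L Γ δ) ∧ L Δ φ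

/-! ### Basic facts -/

theorem eval_congr {A : Type u} [MTLAlgebra A] {v w : ℕ → A} (φ : Fm)
    (h : ∀ i ∈ vars φ, v i = w i) : eval v φ = eval w φ := by
  induction φ with
  | var i => exact h i (by simp [vars])
  | zero => rfl
  | one => rfl
  | and φ ψ h1 h2 | or φ ψ h1 h2 | conj φ ψ h1 h2 | imp φ ψ h1 h2 =>
    simp only [vars, Finset.mem_union] at h
    simp only [eval, h1 fun i hi => h i (Or.inl hi), h2 fun i hi => h i (Or.inr hi)]

theorem eval_subst {A : Type u} [MTLAlgebra A] (v : ℕ → A) (σ : ℕ → Fm) (φ : Fm) :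
    eval v (subst σ φ) = eval (fun i => eval v (σ i)) φ := by
  induction φ with
  | var i => rfl
  | zero => rfl
  | one => rfl
  | and φ ψ h1 h2 | or φ ψ h1 h2 | conj φ ψ h1 h2 | imp φ ψ h1 h2 =>
    simp only [subst, eval, h1, h2]

section alg

variable {A : Type u} [MTLAlgebra A]

open MTLAlgebra

theorem le_one' (x : A) : x ≤ 1 := by rw [one_eq_top]; exact le_top

theorem res_eq_one {x y : A} : res x y = 1 ↔ x ≤ y := by
  constructor
  · intro h
    have := (mul_le_iff 1 x y).2 h.ge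
    rwa [one_mul] at this
  · intro h
    refine le_antisymm (le_one' _) ?_
    rw [← mul_le_iff, one_mul]
    exact h

theorem one_res (x : A) : res 1 x = x := by
  apply le_antisymm
  · have := (mul_le_iff (res 1 x) 1 x).2 le_rfl
    rwa [mul_one] at this
  · rw [← mul_le_iff, mul_one]

theorem mul_mono {a b c d : A} (h1 : a ≤ b) (h2 : c ≤ d) : a * c ≤ b * d := by
  have key : ∀ {a b c : A}, a ≤ b → a * c ≤ b * c := by
    intro a b c h
    rw [mul_le_iff]
    exact h.trans ((mul_le_iff _ _ _).1 le_rfl)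
  calc a * c ≤ b * c := key h1
    _ = c * b := mul_comm _ _
    _ ≤ d * b := key h2
    _ = b * d := mul_comm _ _

theorem res_mul_le (x y : A) : res x y * x ≤ y := (mul_le_iff _ _ _).2 le_rfl

theorem mul_sup (a b c : A) : a * (b ⊔ c) ≤ a * b ⊔ a * c := by
  rw [mul_comm, mul_le_iff]
  refine sup_le ?_ ?_
  · rw [← mul_le_iff, mul_comm]; exact le_sup_left
  · rw [← mul_le_iff, mul_comm]; exact le_sup_right

/-- The key inequality: approximate uniqueness of `y` with `y = (y → x)`. -/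
theorem key_le {x y z e : A} (hy : y * y ≤ x) (he : e ≤ res (res z x) z) : e * y ≤ z := by
  have h0 : res (res z x) z * res z x ≤ z := res_mul_le _ _
  have h1 : e * res z x ≤ z := (mul_mono he le_rfl).trans h0
  calc e * y = (e * y) * 1 := (mul_one _).symm
    _ = (e * y) * (res y z ⊔ res z y) := by rw [prelin]
    _ ≤ (e * y) * res y z ⊔ (e * y) * res z y := mul_sup _ _ _
    _ ≤ z := by
      refine sup_le ?_ ?_
      · calc (e * y) * res y z = e * (res y z * y) := by
              rw [mul_assoc, mul_comm y]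
          _ ≤ 1 * z := mul_mono (le_one' _) (res_mul_le _ _)
          _ = z := one_mul _
      · have h2 : y * res z y ≤ res z x := by
          rw [← mul_le_iff]
          calc y * res z y * z = y * (res z y * z) := mul_assoc _ _ _
            _ ≤ y * y := mul_mono le_rfl (res_mul_le _ _)
            _ ≤ x := hy
        calc (e * y) * res z y = e * (y * res z y) := mul_assoc _ _ _
          _ ≤ e * res z x := mul_mono le_rfl h2
          _ ≤ z := h1

end alg

/-! ### The logic of a finite simple chain -/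

/-- The consequence relation of one MTL-algebra. -/
def Log (B : Type) [MTLAlgebra B] (Γ : Set Fm) (φ : Fm) : Prop :=
  ∀ v : ℕ → B, (∀ γ ∈ Γ, eval v γ = 1) → eval v φ = 1

/-- `φ → (φ → (φ → (φ → ψ)))` -/
def imp4 (φ ψ : Fm) : Fm := .imp φ (.imp φ (.imp φ (.imp φ ψ)))

section fin

variable {B : Type} [MTLAlgebra B]

open MTLAlgebra

theorem eval_imp4 (h4 : ∀ x : B, x ≠ 1 → x * x * x * x = ⊥) (v : ℕ → B) (φ ψ : Fm) :
    eval v (imp4 φ ψ) = 1 ↔ (eval v φ = 1 → eval v ψ = 1) := by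
  by_cases h : eval v φ = 1
  · simp [imp4, eval, h, one_res]
  · simp only [h, false_imp_iff, iff_true]
    simp only [imp4, eval]
    rw [res_eq_one, ← mul_le_iff, ← mul_le_iff, ← mul_le_iff, h4 _ h]
    exact bot_le

theorem eval_foldr (h4 : ∀ x : B, x ≠ 1 → x * x * x * x = ⊥) (v : ℕ → B) (l : List Fm)
    (ψ : Fm) : eval v (l.foldr imp4 ψ) = 1 ↔ ((∀ γ ∈ l, eval v γ = 1) → eval v ψ = 1) := by
  induction l with
  | nil => simp
  | cons a l ih =>
    rw [List.foldr_cons, eval_imp4 h4, ih]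
    simp only [List.mem_cons, forall_eq_or_imp, and_imp]

theorem foldr_one {A : Type} [MTLAlgebra A] (v : ℕ → A) (l : List Fm) (ψ : Fm)
    (h : eval v (l.foldr imp4 ψ) = 1) (hl : ∀ γ ∈ l, eval v γ = 1) : eval v ψ = 1 := by
  induction l with
  | nil => simpa using h
  | cons a l ih =>
    rw [List.foldr_cons] at h
    have ha := hl a (by simp)
    simp only [imp4, eval, ha, one_res] at h
    exact ih h fun γ hγ => hl γ (by simp [hγ])

/-- Compactness for a finite algebra. -/
theorem compact [Finite B] {Γ : Set Fm} {φ : Fm} (h : Log B Γ φ) :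
    ∃ l : List Fm, (∀ γ ∈ l, γ ∈ Γ) ∧ Log B {γ | γ ∈ l} φ := by
  classical
  let _ : TopologicalSpace B := ⊥
  have _ : DiscreteTopology B := ⟨rfl⟩
  have hc : ∀ ψ : Fm, Continuous fun v : ℕ → B => eval v ψ := by
    intro ψ
    induction ψ with
    | var i => exact continuous_apply i
    | zero => exact continuous_const
    | one => exact continuous_const
    | and φ ψ h1 h2 =>
      exact (continuous_of_discreteTopology (f := fun p : B × B => p.1 ⊓ p.2)).comp
        (h1.prodMk h2)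
    | or φ ψ h1 h2 =>
      exact (continuous_of_discreteTopology (f := fun p : B × B => p.1 ⊔ p.2)).comp
        (h1.prodMk h2)
    | conj φ ψ h1 h2 =>
      exact (continuous_of_discreteTopology (f := fun p : B × B => p.1 * p.2)).comp
        (h1.prodMk h2)
    | imp φ ψ h1 h2 =>
      exact (continuous_of_discreteTopology (f := fun p : B × B => res p.1 p.2)).comp
        (h1.prodMk h2)
  have hopen : ∀ γ : Γ, IsOpen {v : ℕ → B | eval v γ ≠ 1} := fun γ =>
    (isOpen_discrete {x : B | x ≠ 1}).preimage (hc γ)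
  have hK : IsCompact {v : ℕ → B | eval v φ ≠ 1} :=
    ((isClosed_discrete {x : B | x ≠ 1}).preimage (hc φ)).isCompact
  obtain ⟨t, ht⟩ := hK.elim_finite_subcover (fun γ : Γ => {v : ℕ → B | eval v γ ≠ 1}) hopen (by
    intro v hv
    by_contra hno
    simp only [Set.mem_iUnion, Set.mem_ofPred_eq, not_exists, not_not] at hno
    exact hv (h v fun γ hγ => hno ⟨γ, hγ⟩))
  refine ⟨(t.image (fun γ : Γ => (γ : Fm))).toList, ?_, ?_⟩
  · intro γ hγ
    simp only [Finset.mem_toList, Finset.mem_image] at hγ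
    obtain ⟨a, _, rfl⟩ := hγ
    exact a.2
  · intro v hv
    by_contra hne
    have := ht (show v ∈ {v : ℕ → B | eval v φ ≠ 1} from hne)
    simp only [Set.mem_iUnion, Set.mem_ofPred_eq, exists_prop] at this
    obtain ⟨γ, hγ, h1⟩ := this
    exact h1 (hv γ (by
      simp only [Set.mem_ofPred_eq, Finset.mem_toList, Finset.mem_image]
      exact ⟨γ, hγ, rfl⟩))

theorem isAxExt_log [Finite B] (h4 : ∀ x : B, x ≠ 1 → x * x * x * x = ⊥) :
    IsAxExt (Log B) := by
  refine ⟨{φ | ∀ v : ℕ → B, eval v φ = 1}, fun σ φ h v => ?_, fun Γ φ => ⟨fun h => ?_, fun h => ?_⟩⟩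
  · rw [eval_subst]; exact h _
  · obtain ⟨l, hl, hφ⟩ := compact h
    intro A _ v hv
    refine foldr_one v l φ (hv _ (Or.inr fun u => ?_)) fun γ hγ => hv γ (Or.inl (hl γ hγ))
    rw [eval_foldr h4]
    exact hφ u
  · intro v hv
    refine h B v ?_
    rintro γ (h1 | h1)
    · exact hv γ h1
    · exact h1 v

/-- finite disjunctions -/
def disj (l : List Fm) : Fm := l.foldr Fm.or .zero

theorem eval_disj (hlin : ∀ x y : B, x ≤ y ∨ y ≤ x) (h01 : (1 : B) ≠ ⊥) (v : ℕ → B)
    (l : List Fm) : eval v (disj l) = 1 ↔ ∃ φ ∈ l, eval v φ = 1 := by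
  induction l with
  | nil => simp [disj, eval, h01.symm]
  | cons a l ih =>
    have h1 : eval v (disj (a :: l)) = eval v a ⊔ eval v (disj l) := rfl
    have h2 : eval v a ⊔ eval v (disj l) = 1 ↔ eval v a = 1 ∨ eval v (disj l) = 1 := by
      constructor
      · intro h
        rcases hlin (eval v a) (eval v (disj l)) with h3 | h3
        · right; rwa [sup_eq_right.2 h3] at h
        · left; rwa [sup_eq_left.2 h3] at h
      · rintro (h | h)
        · exact le_antisymm (le_one' _) (h ▸ le_sup_left)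
        · exact le_antisymm (le_one' _) (h ▸ le_sup_right)
    rw [h1, h2, ih]
    simp

theorem vars_disj (l : List Fm) (i : ℕ) (h : i ∈ vars (disj l)) : ∃ φ ∈ l, i ∈ vars φ := by
  induction l with
  | nil => simp [disj, vars] at h
  | cons a l ih =>
    have h1 : vars (disj (a :: l)) = vars a ∪ vars (disj l) := rfl
    rw [h1, Finset.mem_union] at h
    rcases h with h | h
    · exact ⟨a, by simp, h⟩
    · obtain ⟨φ, h2, h3⟩ := ih h
      exact ⟨φ, by simp [h2], h3⟩

theorem vars_subst_var (j : ℕ) (φ : Fm) (i : ℕ) (h : i ∈ vars (subst (fun _ => .var j) φ)) :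
    i = j := by
  induction φ with
  | var k => simpa [subst, vars] using h
  | zero => simp [subst, vars] at h
  | one => simp [subst, vars] at h
  | and φ ψ h1 h2 | or φ ψ h1 h2 | conj φ ψ h1 h2 | imp φ ψ h1 h2 =>
    simp only [subst, vars, Finset.mem_union] at h
    exact h.elim h1 h2

/-- The logic of a finite simple chain in which every element is characterized by a formula in one
variable has the deductive interpolation property. -/
theorem dip_log [Fintype B] [DecidableEq B] (hlin : ∀ x y : B, x ≤ y ∨ y ≤ x)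
    (h01 : (1 : B) ≠ ⊥) (ch : B → Fm) (hch : ∀ b c : B, eval (fun _ => c) (ch b) = 1 ↔ c = b) :
    DIP (Log B) := by
  classical
  intro Γ φ hφ
  refine ⟨{δ | (∀ i ∈ vars δ, (∃ γ ∈ Γ, i ∈ vars γ) ∧ i ∈ vars φ) ∧ Log B Γ δ},
    fun δ h => h.1, fun δ h => h.2, ?_⟩
  intro v hv
  set Z : Finset ℕ := (vars φ).filter (fun i => ∃ γ ∈ Γ, i ∈ vars γ) with hZ
  have key : ∃ w : ℕ → B, (∀ γ ∈ Γ, eval w γ = 1) ∧ ∀ i ∈ Z, w i = v i := by
    by_contra hno
    push Not at hno
    let l : List Fm := ((Z ×ˢ (Finset.univ : Finset B)).filter (fun p => p.2 ≠ v p.1)).toList.map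
      (fun p => subst (fun _ => .var p.1) (ch p.2))
    have hmem : ∀ ψ, ψ ∈ l ↔ ∃ i ∈ Z, ∃ b, b ≠ v i ∧ subst (fun _ => .var i) (ch b) = ψ := by
      intro ψ
      simp only [l, List.mem_map, Finset.mem_toList, Finset.mem_filter, Finset.mem_product,
        Finset.mem_univ, and_true, Prod.exists]
      constructor
      · rintro ⟨i, b, ⟨h1, h2⟩, h3⟩
        exact ⟨i, h1, b, h2, h3⟩
      · rintro ⟨i, h1, b, h2, h3⟩
        exact ⟨i, b, ⟨h1, h2⟩, h3⟩
    have hev : ∀ (w : ℕ → B) (i : ℕ) (b : B),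
        eval w (subst (fun _ => .var i) (ch b)) = 1 ↔ w i = b := by
      intro w i b
      rw [eval_subst]
      exact hch b (w i)
    have h1 : eval v (disj l) = 1 := by
      refine hv _ ⟨fun i hi => ?_, fun w hw => ?_⟩
      · obtain ⟨ψ, hψ, hi2⟩ := vars_disj l i hi
        obtain ⟨j, hj, b, _, rfl⟩ := (hmem ψ).1 hψ
        obtain rfl := vars_subst_var _ _ _ hi2
        rw [hZ, Finset.mem_filter] at hj
        exact ⟨hj.2, hj.1⟩
      · obtain ⟨i, hi, hne⟩ := hno w hw
        rw [eval_disj hlin h01]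
        exact ⟨_, (hmem _).2 ⟨i, hi, w i, hne, rfl⟩, (hev w i (w i)).2 rfl⟩
    rw [eval_disj hlin h01] at h1
    obtain ⟨ψ, hψ, h2⟩ := h1
    obtain ⟨i, _, b, hb, rfl⟩ := (hmem ψ).1 hψ
    exact hb ((hev v i b).1 h2).symm
  obtain ⟨w, hw, hwv⟩ := key
  let u : ℕ → B := fun i => if ∃ γ ∈ Γ, i ∈ vars γ then w i else v i
  have hu := hφ u (fun γ hγ => by
    rw [← hw γ hγ]
    refine eval_congr γ fun i hi => ?_
    simp only [u]
    rw [if_pos ⟨γ, hγ, hi⟩])
  rw [← hu]
  refine eval_congr φ fun i hi => ?_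
  simp only [u]
  split_ifs with h
  · exact (hwv i (by rw [hZ, Finset.mem_filter]; exact ⟨hi, h⟩)).symm
  · rfl

end fin

/-! ### Two five-element chains -/

/-- The multiplication of the five-element Łukasiewicz chain. -/
def mulA : Fin 5 → Fin 5 → Fin 5 :=
  ![![0, 0, 0, 0, 0], ![0, 0, 0, 0, 1], ![0, 0, 0, 1, 2], ![0, 0, 1, 2, 3], ![0, 1, 2, 3, 4]]

/-- Its residuum. -/
def resA : Fin 5 → Fin 5 → Fin 5 :=
  ![![4, 4, 4, 4, 4], ![3, 4, 4, 4, 4], ![2, 3, 4, 4, 4], ![1, 2, 3, 4, 4], ![0, 1, 2, 3, 4]]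

/-- The multiplication of the second chain. -/
def mulB : Fin 5 → Fin 5 → Fin 5 :=
  ![![0, 0, 0, 0, 0], ![0, 0, 0, 0, 1], ![0, 0, 0, 1, 2], ![0, 0, 1, 1, 3], ![0, 1, 2, 3, 4]]

/-- Its residuum. -/
def resB : Fin 5 → Fin 5 → Fin 5 :=
  ![![4, 4, 4, 4, 4], ![3, 4, 4, 4, 4], ![2, 3, 4, 4, 4], ![1, 3, 3, 4, 4], ![0, 1, 2, 3, 4]]

/-- The five-element Łukasiewicz chain. -/
def CA : Type := Fin 5

/-- The second chain. -/
def CB : Type := Fin 5

instance : Fintype CA := inferInstanceAs (Fintype (Fin 5))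
instance : Fintype CB := inferInstanceAs (Fintype (Fin 5))
instance : DecidableEq CA := inferInstanceAs (DecidableEq (Fin 5))
instance : DecidableEq CB := inferInstanceAs (DecidableEq (Fin 5))

instance : MTLAlgebra CA where
  toLattice := inferInstanceAs (Lattice (Fin 5))
  toBoundedOrder := inferInstanceAs (BoundedOrder (Fin 5))
  mul := mulA
  one := (4 : Fin 5)
  mul_assoc := by change ∀ a b c : Fin 5, mulA (mulA a b) c = mulA a (mulA b c); decide
  one_mul := by change ∀ a : Fin 5, mulA 4 a = a; decide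
  mul_one := by change ∀ a : Fin 5, mulA a 4 = a; decide
  mul_comm := by change ∀ a b : Fin 5, mulA a b = mulA b a; decide
  res := resA
  mul_le_iff := by change ∀ x y z : Fin 5, mulA x y ≤ z ↔ x ≤ resA y z; decide
  one_eq_top := rfl
  prelin := by change ∀ x y : Fin 5, resA x y ⊔ resA y x = 4; decide

instance : MTLAlgebra CB where
  toLattice := inferInstanceAs (Lattice (Fin 5))
  toBoundedOrder := inferInstanceAs (BoundedOrder (Fin 5))
  mul := mulB
  one := (4 : Fin 5)
  mul_assoc := by change ∀ a b c : Fin 5, mulB (mulB a b) c = mulB a (mulB b c); decide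
  one_mul := by change ∀ a : Fin 5, mulB 4 a = a; decide
  mul_one := by change ∀ a : Fin 5, mulB a 4 = a; decide
  mul_comm := by change ∀ a b : Fin 5, mulB a b = mulB b a; decide
  res := resB
  mul_le_iff := by change ∀ x y z : Fin 5, mulB x y ≤ z ↔ x ≤ resB y z; decide
  one_eq_top := rfl
  prelin := by change ∀ x y : Fin 5, resB x y ⊔ resB y x = 4; decide

/-- `¬φ` -/
def neg (φ : Fm) : Fm := .imp φ .zero

/-- `φ ↔ ψ` -/
def iff (φ ψ : Fm) : Fm := .and (.imp φ ψ) (.imp ψ φ)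

/-- `φ²` -/
def sq (φ : Fm) : Fm := .conj φ φ

/-- Characterizing formulas in `CA`. -/
def chA : Fin 5 → Fm :=
  ![neg (.var 0), iff (sq (neg (.var 0))) (neg (sq (neg (.var 0)))), iff (.var 0) (neg (.var 0)),
    iff (sq (.var 0)) (neg (sq (.var 0))), .var 0]

/-- Characterizing formulas in `CB`. -/
def chB : Fin 5 → Fm :=
  ![neg (.var 0), iff (sq (neg (.var 0))) (.var 0), iff (.var 0) (neg (.var 0)),
    iff (sq (.var 0)) (neg (.var 0)), .var 0]

theorem dipA : DIP (Log CA) := by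
  refine dip_log (B := CA) ?_ ?_ chA ?_
  · change ∀ x y : Fin 5, x ≤ y ∨ y ≤ x; decide
  · change (4 : Fin 5) ≠ 0; decide
  · intro b c
    change Fin 5 at b c
    fin_cases b
    · revert c
      change ∀ c : Fin 5, resA c 0 = 4 ↔ c = 0
      decide
    · revert c
      change ∀ c : Fin 5, resA (mulA (resA c 0) (resA c 0)) (resA (mulA (resA c 0) (resA c 0)) 0) ⊓
        resA (resA (mulA (resA c 0) (resA c 0)) 0) (mulA (resA c 0) (resA c 0)) = 4 ↔ c = 1
      decide
    · revert c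
      change ∀ c : Fin 5, resA c (resA c 0) ⊓ resA (resA c 0) c = 4 ↔ c = 2
      decide
    · revert c
      change ∀ c : Fin 5, resA (mulA c c) (resA (mulA c c) 0) ⊓
        resA (resA (mulA c c) 0) (mulA c c) = 4 ↔ c = 3
      decide
    · revert c
      change ∀ c : Fin 5, c = 4 ↔ c = 4
      decide

theorem dipB : DIP (Log CB) := by
  refine dip_log (B := CB) ?_ ?_ chB ?_
  · change ∀ x y : Fin 5, x ≤ y ∨ y ≤ x; decide
  · change (4 : Fin 5) ≠ 0; decide
  · intro b c
    change Fin 5 at b c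
    fin_cases b
    · revert c
      change ∀ c : Fin 5, resB c 0 = 4 ↔ c = 0
      decide
    · revert c
      change ∀ c : Fin 5, resB (mulB (resB c 0) (resB c 0)) c ⊓
        resB c (mulB (resB c 0) (resB c 0)) = 4 ↔ c = 1
      decide
    · revert c
      change ∀ c : Fin 5, resB c (resB c 0) ⊓ resB (resB c 0) c = 4 ↔ c = 2
      decide
    · revert c
      change ∀ c : Fin 5, resB (mulB c c) (resB c 0) ⊓
        resB (resB c 0) (mulB c c) = 4 ↔ c = 3
      decide
    · revert c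
      change ∀ c : Fin 5, c = 4 ↔ c = 4
      decide

theorem axA : IsAxExt (Log CA) := by
  refine isAxExt_log (B := CA) ?_
  change ∀ x : Fin 5, x ≠ 4 → mulA (mulA (mulA x x) x) x = 0
  decide

theorem axB : IsAxExt (Log CB) := by
  refine isAxExt_log (B := CB) ?_
  change ∀ x : Fin 5, x ≠ 4 → mulB (mulB (mulB x x) x) x = 0
  decide

/-- The premises `x ↔ ¬x`, `y ↔ (y → x)`, `x → y²`. -/
def gam : Set Fm :=
  {iff (.var 0) (neg (.var 0)), iff (.var 1) (.imp (.var 1) (.var 0)),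
    .imp (.var 0) (sq (.var 1))}

/-- `(z → (z → x)) ∧ ((z → x) → z)` -/
def ee : Fm := iff (.var 2) (.imp (.var 2) (.var 0))

/-- The conclusion `e² → (x → z²)`. -/
def phi : Fm := .imp (sq ee) (.imp (.var 0) (sq (.var 2)))

open MTLAlgebra in
theorem gam_phi : MTLCons gam phi := by
  intro A _ v hv
  have h1 := hv _ (show iff (.var 1) (.imp (.var 1) (.var 0)) ∈ gam by simp [gam])
  have h2 := hv _ (show .imp (.var 0) (sq (.var 1)) ∈ gam by simp [gam])
  simp only [iff, eval] at h1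
  simp only [sq, eval] at h2
  rw [res_eq_one] at h2
  have h3 : res (v 1) (res (v 1) (v 0)) = 1 := le_antisymm (le_one' _) (h1 ▸ inf_le_left)
  rw [res_eq_one, ← mul_le_iff] at h3
  have h4 : eval v ee * v 1 ≤ v 2 := key_le h3 inf_le_right
  simp only [phi, sq, eval]
  rw [res_eq_one, ← mul_le_iff]
  calc eval v ee * eval v ee * v 0 ≤ eval v ee * eval v ee * (v 1 * v 1) := mul_mono le_rfl h2
    _ = (eval v ee * v 1) * (eval v ee * v 1) := mul_mul_mul_comm _ _ _ _
    _ ≤ v 2 * v 2 := mul_mono h4 h4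

/-- The valuation into `CA`. -/
def vA : ℕ → CA := fun i => if i = 0 then (2 : Fin 5) else (3 : Fin 5)

/-- The valuation into `CB`. -/
def vB : ℕ → CB := fun i => if i = 0 then (2 : Fin 5) else (3 : Fin 5)

/-- the identity map from `CA` to `CB` -/
def toB (a : CA) : CB := a

/-- The elements `0, 2, 4`. -/
def P (a : CA) : Prop := a = (0 : Fin 5) ∨ a = (2 : Fin 5) ∨ a = (4 : Fin 5)

theorem same_inf : ∀ a b : CA, P a → P b → toB a ⊓ toB b = toB (a ⊓ b) ∧ P (a ⊓ b) := by
  change ∀ a b : Fin 5, (a = 0 ∨ a = 2 ∨ a = 4) → (b = 0 ∨ b = 2 ∨ b = 4) →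
        (a ⊓ b = a ⊓ b ∧ (a ⊓ b = 0 ∨ a ⊓ b = 2 ∨ a ⊓ b = 4))
  decide

theorem same_sup : ∀ a b : CA, P a → P b → toB a ⊔ toB b = toB (a ⊔ b) ∧ P (a ⊔ b) := by
  change ∀ a b : Fin 5, (a = 0 ∨ a = 2 ∨ a = 4) → (b = 0 ∨ b = 2 ∨ b = 4) →
        (a ⊔ b = a ⊔ b ∧ (a ⊔ b = 0 ∨ a ⊔ b = 2 ∨ a ⊔ b = 4))
  decide

theorem same_mul : ∀ a b : CA, P a → P b → toB a * toB b = toB (a * b) ∧ P (a * b) := by
  change ∀ a b : Fin 5, (a = 0 ∨ a = 2 ∨ a = 4) → (b = 0 ∨ b = 2 ∨ b = 4) →
        (mulB a b = mulA a b ∧ (mulA a b = 0 ∨ mulA a b = 2 ∨ mulA a b = 4))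
  decide

theorem same_res : ∀ a b : CA, P a → P b →
    MTLAlgebra.res (toB a) (toB b) = toB (MTLAlgebra.res a b) ∧ P (MTLAlgebra.res a b) := by
  change ∀ a b : Fin 5, (a = 0 ∨ a = 2 ∨ a = 4) → (b = 0 ∨ b = 2 ∨ b = 4) →
        (resB a b = resA a b ∧ (resA a b = 0 ∨ resA a b = 2 ∨ resA a b = 4))
  decide

theorem same_var : vB 0 = toB (vA 0) ∧ P (vA 0) := by
  have h1 : vA 0 = (2 : Fin 5) := if_pos rfl
  have h2 : vB 0 = (2 : Fin 5) := if_pos rfl
  rw [h1, h2]
  exact ⟨rfl, Or.inr (Or.inl rfl)⟩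

theorem same_bot : (⊥ : CB) = toB (⊥ : CA) ∧ P (⊥ : CA) := by
  have h1 : (⊥ : CA) = (0 : Fin 5) := rfl
  have h2 : (⊥ : CB) = (0 : Fin 5) := rfl
  rw [h1, h2]
  exact ⟨rfl, Or.inl rfl⟩

theorem same_one : (1 : CB) = toB (1 : CA) ∧ P (1 : CA) := by
  have h1 : (1 : CA) = (4 : Fin 5) := rfl
  have h2 : (1 : CB) = (4 : Fin 5) := rfl
  rw [h1, h2]
  exact ⟨rfl, Or.inr (Or.inr rfl)⟩

theorem same (φ : Fm) (h : ∀ i ∈ vars φ, i = 0) :
    eval vB φ = toB (eval vA φ) ∧ P (eval vA φ) := by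
  induction φ with
  | var i =>
    obtain rfl := h i (by simp [vars])
    exact same_var
  | zero => exact same_bot
  | one => exact same_one
  | and φ ψ h1 h2 =>
    simp only [vars, Finset.mem_union] at h
    obtain ⟨e1, c1⟩ := h1 fun i hi => h i (Or.inl hi)
    obtain ⟨e2, c2⟩ := h2 fun i hi => h i (Or.inr hi)
    rw [eval, eval, e1, e2]
    exact same_inf _ _ c1 c2
  | or φ ψ h1 h2 =>
    simp only [vars, Finset.mem_union] at h
    obtain ⟨e1, c1⟩ := h1 fun i hi => h i (Or.inl hi)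
    obtain ⟨e2, c2⟩ := h2 fun i hi => h i (Or.inr hi)
    rw [eval, eval, e1, e2]
    exact same_sup _ _ c1 c2
  | conj φ ψ h1 h2 =>
    simp only [vars, Finset.mem_union] at h
    obtain ⟨e1, c1⟩ := h1 fun i hi => h i (Or.inl hi)
    obtain ⟨e2, c2⟩ := h2 fun i hi => h i (Or.inr hi)
    rw [eval, eval, e1, e2]
    exact same_mul _ _ c1 c2
  | imp φ ψ h1 h2 =>
    simp only [vars, Finset.mem_union] at h
    obtain ⟨e1, c1⟩ := h1 fun i hi => h i (Or.inl hi)
    obtain ⟨e2, c2⟩ := h2 fun i hi => h i (Or.inr hi)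
    rw [eval, eval, e1, e2]
    exact same_res _ _ c1 c2

theorem vA_gam : ∀ γ ∈ gam, eval vA γ = 1 := by
  intro γ hγ
  simp only [gam, Set.mem_insert_iff, Set.mem_singleton_iff] at hγ
  rcases hγ with rfl | rfl | rfl
  · change resA 2 (resA 2 0) ⊓ resA (resA 2 0) 2 = (4 : Fin 5); decide
  · change resA 3 (resA 3 2) ⊓ resA (resA 3 2) 3 = (4 : Fin 5); decide
  · change resA 2 (mulA 3 3) = (4 : Fin 5); decide

theorem vB_phi : eval vB phi ≠ 1 := by
  change resB (mulB (resB 3 (resB 3 2) ⊓ resB (resB 3 2) 3) (resB 3 (resB 3 2) ⊓ resB (resB 3 2) 3))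
    (resB 2 (mulB 3 3)) ≠ (4 : Fin 5)
  decide

theorem vars_gam (γ : Fm) (h : γ ∈ gam) (i : ℕ) (hi : i ∈ vars γ) : i = 0 ∨ i = 1 := by
  simp only [gam, Set.mem_insert_iff, Set.mem_singleton_iff] at h
  rcases h with rfl | rfl | rfl <;> simp [iff, neg, sq, vars] at hi <;> tauto

theorem vars_phi (i : ℕ) (hi : i ∈ vars phi) : i = 0 ∨ i = 2 := by
  simp [phi, ee, iff, sq, vars] at hi
  tauto

/-- No axiomatic extension of MTL contained in both logics has the property. -/
theorem not_dip (L : Set Fm → Fm → Prop) (hL : IsAxExt L)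
    (hA : ∀ Γ φ, L Γ φ → Log CA Γ φ) (hB : ∀ Γ φ, L Γ φ → Log CB Γ φ) : ¬ DIP L := by
  intro hD
  obtain ⟨S, _, hS⟩ := hL
  obtain ⟨Δ, h1, h2, h3⟩ := hD gam phi ((hS _ _).2 fun A _ v hv =>
    gam_phi A v fun γ hγ => hv γ (Or.inl hγ))
  refine vB_phi (hB _ _ h3 vB fun δ hδ => ?_)
  have h4 := hA _ _ (h2 δ hδ) vA vA_gam
  obtain ⟨h5, _⟩ := same δ (fun i hi => by
    obtain ⟨⟨γ, hγ, h6⟩, h7⟩ := h1 δ hδ i hi
    have h8 := vars_gam γ hγ i h6
    have h9 := vars_phi i h7
    omega)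
  rw [h5, h4]
  rfl

/-- There are two axiomatic extensions of MTL with the deductive interpolation property such that
no axiomatic extension of MTL contained in both has the property. In particular there is no least
axiomatic extension of MTL with the property. -/
theorem result :
    (∃ L₁ L₂ : Set Fm → Fm → Prop, IsAxExt L₁ ∧ DIP L₁ ∧ IsAxExt L₂ ∧ DIP L₂ ∧
      ∀ L : Set Fm → Fm → Prop, IsAxExt L → (∀ Γ φ, L Γ φ → L₁ Γ φ) →
        (∀ Γ φ, L Γ φ → L₂ Γ φ) → ¬ DIP L) ∧
    ¬ ∃ L₀ : Set Fm → Fm → Prop, IsAxExt L₀ ∧ DIP L₀ ∧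
      ∀ L : Set Fm → Fm → Prop, IsAxExt L → DIP L → ∀ Γ φ, L₀ Γ φ → L Γ φ := by
  refine ⟨⟨Log CA, Log CB, axA, dipA, axB, dipB, not_dip⟩, ?_⟩
  rintro ⟨L, h1, h2, h3⟩
  exact not_dip L h1 (h3 _ axA dipA) (h3 _ axB dipB) h2

end Pool.Agent.Results.MP_acc005_lc.NoMinimum
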